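import Mathlib

/-!
# A `K₄*`-free graph arrowing triangles (typed Hales–Jewett partite construction)

Helper file for `MP_eb1b1c_co` (negation).  The graph `H₀` is the complement of `P₂ ∪ P₃`,
i.e. `K₄` with one edge subdivided once.
-/

set_option autoImplicit false

namespace Pool.Agent.H31.Folkman

open Combinatorics

/-- Bipartite Ramsey: every 2-colouring of `R × R` has a monochromatic `V × V` rectangle. -/
theorem rect (V : Type) [Finite V] :
    ∃ (R : Type) (_ : Finite R), ∀ c0 : R → R → Bool,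
      ∃ (f g : V ↪ R) (t : Bool), ∀ a b, c0 (f a) (g b) = t := by
  obtain ⟨ι, hι, h⟩ := Line.exists_mono_in_high_dimension (V × V) Bool
  refine ⟨ι → V, inferInstance, fun c0 => ?_⟩
  obtain ⟨l, t, ht⟩ := h (fun w => c0 (fun i => (w i).1) (fun i => (w i).2))
  obtain ⟨i0, hi0⟩ := l.proper
  refine ⟨⟨fun a i => ((l.idxFun i).map Prod.fst).getD a, ?_⟩,
    ⟨fun a i => ((l.idxFun i).map Prod.snd).getD a, ?_⟩, t, ?_⟩
  · intro a b hab
    have := congrFun hab i0
    simpa [hi0] using this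
  · intro a b hab
    have := congrFun hab i0
    simpa [hi0] using this
  · intro a b
    rw [← ht (a, b)]
    change c0 (fun i => ((l.idxFun i).map Prod.fst).getD a)
      (fun i => ((l.idxFun i).map Prod.snd).getD b) =
      c0 (fun i => ((l.idxFun i).getD (a, b)).1) (fun i => ((l.idxFun i).getD (a, b)).2)
    congr 1
    · funext i
      cases h : l.idxFun i <;> simp
    · funext i
      cases h : l.idxFun i <;> simp

section Step

variable {V : Type} (G : SimpleGraph V) (π : V → Fin 6) (cl : Bool → Fin 6) (R N : Type)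

/-- pairs of embeddings into the base classes -/
abbrev KK (V R : Type) := Bool → (V ↪ R)

/-- edges of the treated type -/
abbrev E0 := {e : Bool → V // (∀ b, π (e b) = cl b) ∧ G.Adj (e false) (e true)}

/-- letters -/
abbrev Let := KK V R × E0 G π cl

/-- endpoint of a letter on side `b` -/
def ep (s : Let G π cl R) (b : Bool) : R := s.1 b (s.2.1 b)

/-- incidence of a base class with a letter -/
def inc (p : Bool × R) (s : Let G π cl R) : Prop := ep G π cl R s p.1 = p.2

open Classical in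
/-- the letter seen from the class `p` -/
noncomputable def rho (p : Bool × R) (s : Let G π cl R) : KK V R ⊕ Let G π cl R :=
  if inc G π cl R p s then Sum.inl s.1 else Sum.inr s

/-- indices of the copies -/
abbrev Om := {l : N → Option (Let G π cl R) // ∃ n, l n = none} × KK V R

/-- word of a copy at the class `p` -/
noncomputable def wd (l : N → Option (Let G π cl R)) (k : KK V R) (p : Bool × R) :
    N → KK V R ⊕ Let G π cl R :=
  fun n => match l n with
    | none => Sum.inl k
    | some s => rho G π cl R p s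

/-- vertices of the new graph -/
abbrev W := ((Bool × R) × (N → KK V R ⊕ Let G π cl R)) ⊕ (Om G π cl R N × V)

open Classical in
/-- the embedding of the copy with index `ω` -/
noncomputable def phi (ω : Om G π cl R N) (v : V) : W G π cl R N :=
  if π v = cl false then
    Sum.inl ((false, ω.2 false v), wd G π cl R N ω.1.1 ω.2 (false, ω.2 false v))
  else if π v = cl true then
    Sum.inl ((true, ω.2 true v), wd G π cl R N ω.1.1 ω.2 (true, ω.2 true v))
  else Sum.inr (ω, v)

/-- the adjacency of the new graph -/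
def Adj' (z z' : W G π cl R N) : Prop :=
  ∃ ω u v, G.Adj u v ∧ phi G π cl R N ω u = z ∧ phi G π cl R N ω v = z'

/-- the class function of the new graph -/
def pi' : W G π cl R N → Fin 6
  | Sum.inl ((b, _), _) => cl b
  | Sum.inr (_, v) => π v

variable {G π cl R N}

theorem Adj'.symm {z z' : W G π cl R N} (h : Adj' G π cl R N z z') :
    Adj' G π cl R N z' z := by
  obtain ⟨ω, u, v, h1, h2, h3⟩ := h
  exact ⟨ω, v, u, h1.symm, h3, h2⟩

variable (hcl : cl false ≠ cl true)
include hcl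

theorem phi_cl (ω : Om G π cl R N) (v : V) (b : Bool) (hv : π v = cl b) :
    phi G π cl R N ω v = Sum.inl ((b, ω.2 b v), wd G π cl R N ω.1.1 ω.2 (b, ω.2 b v)) := by
  cases b with
  | false => simp [phi, hv]
  | true => simp [phi, hv, hcl.symm]

omit hcl in
theorem phi_none (ω : Om G π cl R N) (v : V) (hv : ∀ b, π v ≠ cl b) :
    phi G π cl R N ω v = Sum.inr (ω, v) := by
  simp [phi, hv false, hv true]

theorem pi'_phi (ω : Om G π cl R N) (v : V) : pi' G π cl R N (phi G π cl R N ω v) = π v := by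
  by_cases h : ∃ b, π v = cl b
  · obtain ⟨b, hb⟩ := h
    rw [phi_cl hcl ω v b hb]
    simp [pi', hb]
  · push Not at h
    rw [phi_none ω v h]
    simp [pi']

theorem phi_inj (ω : Om G π cl R N) : Function.Injective (phi G π cl R N ω) := by
  intro u v huv
  have hπ : π u = π v := by rw [← pi'_phi hcl ω u, huv, pi'_phi hcl ω v]
  by_cases h : ∃ b, π v = cl b
  · obtain ⟨b, hb⟩ := h
    rw [phi_cl hcl ω v b hb, phi_cl hcl ω u b (hπ.trans hb)] at huv
    simp only [Sum.inl.injEq, Prod.mk.injEq, true_and] at huv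
    exact (ω.2 b).injective huv.1
  · push Not at h
    rw [phi_none ω v h, phi_none ω u (by simpa [hπ] using h)] at huv
    simpa using huv

/-- a fresh vertex determines its copy -/
theorem fresh_eq {ω ω' : Om G π cl R N} {u v : V}
    (h : phi G π cl R N ω u = Sum.inr (ω', v)) : ω = ω' ∧ u = v := by
  by_cases h' : ∃ b, π u = cl b
  · obtain ⟨b, hb⟩ := h'
    rw [phi_cl hcl ω u b hb] at h
    simp at h
  · push Not at h'
    rw [phi_none ω u h'] at h
    simpa using h

theorem fresh_nbr {ω : Om G π cl R N} {v : V} {z : W G π cl R N}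
    (h : Adj' G π cl R N (Sum.inr (ω, v)) z) :
    phi G π cl R N ω v = Sum.inr (ω, v) ∧ ∃ v', phi G π cl R N ω v' = z := by
  obtain ⟨ω', u', v', h1, h2, h3⟩ := h
  obtain ⟨rfl, rfl⟩ := fresh_eq hcl h2
  exact ⟨h2, v', h3⟩

/-- a vertex of `F` has class `cl b` -/
theorem inl_class {ω : Om G π cl R N} {v : V} {x}
    (h : phi G π cl R N ω v = Sum.inl x) : ∃ b, π v = cl b ∧ x =
      ((b, ω.2 b v), wd G π cl R N ω.1.1 ω.2 (b, ω.2 b v)) := by
  by_cases h' : ∃ b, π v = cl b
  · obtain ⟨b, hb⟩ := h'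
    refine ⟨b, hb, ?_⟩
    rw [phi_cl hcl ω v b hb] at h
    simpa using h.symm
  · push Not at h'
    rw [phi_none ω v h'] at h
    simp at h

omit hcl in
theorem rho_inl {p : Bool × R} {s : Let G π cl R} {k : KK V R}
    (h : rho G π cl R p s = Sum.inl k) : inc G π cl R p s ∧ s.1 = k := by
  unfold rho at h
  split_ifs at h with h1
  exact ⟨h1, by simpa using h⟩

omit hcl in
theorem rho_of_inc {p : Bool × R} {s : Let G π cl R} (h : inc G π cl R p s) :
    rho G π cl R p s = Sum.inl s.1 := by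
  simp [rho, h]

omit hcl in
theorem rho_eq {p : Bool × R} {s s' : Let G π cl R}
    (h : rho G π cl R p s = rho G π cl R p s') :
    s = s' ∨ (inc G π cl R p s ∧ inc G π cl R p s' ∧ s.1 = s'.1) := by
  unfold rho at h
  split_ifs at h with h1 h2
  · exact Or.inr ⟨h1, h2, by simpa using h⟩
  · exact Or.inl (by simpa using h)

omit hcl in
/-- two letters with the same `κ`, incident with the same two distinct classes, are equal -/
theorem two_inc_eq {p p' : Bool × R} (hp : p ≠ p') {s s' : Let G π cl R}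
    (h1 : inc G π cl R p s) (h2 : inc G π cl R p' s) (h1' : inc G π cl R p s')
    (h2' : inc G π cl R p' s') (hk : s.1 = s'.1) : s = s' := by
  obtain ⟨b, x⟩ := p
  obtain ⟨b', x'⟩ := p'
  obtain ⟨k, e, he⟩ := s
  obtain ⟨k', e', he'⟩ := s'
  simp only [inc, ep] at h1 h2 h1' h2' hk
  subst hk
  have hb : b ≠ b' := by
    rintro rfl
    exact hp (by rw [← h1, ← h2])
  have e1 : e b = e' b := (k b).injective (h1.trans h1'.symm)
  have e2 : e b' = e' b' := (k b').injective (h2.trans h2'.symm)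
  have : e = e' := by
    funext c
    cases b <;> cases b' <;> cases c <;> simp_all
  subst this
  rfl

omit hcl in
/-- a letter incident with two classes in the image of `κ` is an edge -/
theorem two_inc_adj {k : KK V R} {b b' : Bool} {u u' : V} (hp : (b, k b u) ≠ (b', k b' u'))
    {s : Let G π cl R}
    (h1 : inc G π cl R (b, k b u) s) (h2 : inc G π cl R (b', k b' u') s) (hk : s.1 = k) :
    G.Adj u u' := by
  obtain ⟨k', e, he⟩ := s
  simp only [inc, ep] at h1 h2 hk
  subst hk
  have e1 : e b = u := (k' b).injective h1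
  have e2 : e b' = u' := (k' b').injective h2
  have hb : b ≠ b' := by
    rintro rfl
    exact hp (by rw [← e1, ← e2])
  have := he.2
  cases b <;> cases b' <;> simp_all [SimpleGraph.adj_comm]

/-- Claim 1: two copies sharing two non-adjacent `F`-vertices coincide. -/
theorem claim1 {ω ω' : Om G π cl R N} {u u' v v' : V} {x x'}
    (hu : phi G π cl R N ω u = Sum.inl x) (hu' : phi G π cl R N ω u' = Sum.inl x')
    (hv : phi G π cl R N ω' v = Sum.inl x) (hv' : phi G π cl R N ω' v' = Sum.inl x')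
    (hne : u ≠ u') (hadj : ¬ G.Adj u u') : ω = ω' := by
  obtain ⟨b, hb, h1⟩ := inl_class hcl hu
  obtain ⟨b', hb', h1'⟩ := inl_class hcl hu'
  obtain ⟨d, hd, h2⟩ := inl_class hcl hv
  obtain ⟨d', hd', h2'⟩ := inl_class hcl hv'
  obtain ⟨⟨l, n0, hl⟩, k⟩ := ω
  obtain ⟨⟨l', n1, hl'⟩, k'⟩ := ω'
  rw [h1] at h2
  rw [h1'] at h2'
  simp only [Prod.mk.injEq] at h2 h2'
  obtain ⟨⟨rfl, hp⟩, hw⟩ := h2
  obtain ⟨⟨rfl, hp'⟩, hw'⟩ := h2'
  rw [← hp] at hw
  rw [← hp'] at hw'
  -- the two classes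
  have hPne : (b, k b u) ≠ (b', k b' u') := by
    intro h
    rw [Prod.mk.injEq] at h
    obtain ⟨rfl, h⟩ := h
    exact hne ((k b).injective h)
  have hw1 : ∀ n, wd G π cl R N l k (b, k b u) n = wd G π cl R N l' k' (b, k b u) n :=
    fun n => congrFun hw n
  have hw2 : ∀ n, wd G π cl R N l k (b', k b' u') n = wd G π cl R N l' k' (b', k b' u') n :=
    fun n => congrFun hw' n
  -- active coordinates of `l` are active in `l'`
  have hM : ∀ n, l n = none → l' n = none := by
    intro n hn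
    cases hn' : l' n with
    | none => rfl
    | some s =>
      exfalso
      have a1 := hw1 n
      have a2 := hw2 n
      simp only [wd, hn, hn'] at a1 a2
      obtain ⟨i1, i2⟩ := rho_inl a1.symm
      obtain ⟨i3, i4⟩ := rho_inl a2.symm
      exact hadj (two_inc_adj hPne i1 i3 i2)
  have hk : k = k' := by
    have a1 := hw1 n0
    simp only [wd, hl, hM n0 hl] at a1
    simpa using a1
  subst hk
  have hll : l = l' := by
    funext n
    cases hn : l n with
    | none => rw [hM n hn]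
    | some s =>
      cases hn' : l' n with
      | none =>
        exfalso
        have a1 := hw1 n
        have a2 := hw2 n
        simp only [wd, hn, hn'] at a1 a2
        obtain ⟨i1, i2⟩ := rho_inl a1
        obtain ⟨i3, i4⟩ := rho_inl a2
        exact hadj (two_inc_adj hPne i1 i3 i2)
      | some s' =>
        have a1 := hw1 n
        have a2 := hw2 n
        simp only [wd, hn, hn'] at a1 a2
        rcases rho_eq a1 with h | ⟨j1, j2, j3⟩
        · rw [h]
        rcases rho_eq a2 with h | ⟨j4, j5, j6⟩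
        · rw [h]
        rw [two_inc_eq hPne j1 j4 j2 j5 j3]
  subst hll
  rfl

/-- an edge inside `F` comes from a word -/
theorem edge_word {x y} (h : Adj' G π cl R N (Sum.inl x) (Sum.inl y))
    (hG : ∀ u v, G.Adj u v → π u ≠ π v) :
    ∃ s : N → Let G π cl R, x.1.1 ≠ y.1.1 ∧ (∀ n, x.2 n = rho G π cl R x.1 (s n)) ∧
      (∀ n, y.2 n = rho G π cl R y.1 (s n)) := by
  obtain ⟨ω, u, v, huv, hu, hv⟩ := h
  obtain ⟨b, hb, rfl⟩ := inl_class hcl hu
  obtain ⟨b', hb', rfl⟩ := inl_class hcl hv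
  have hbb : b ≠ b' := by
    rintro rfl
    exact hG u v huv (hb.trans hb'.symm)
  -- the edge as an element of `E0`
  obtain ⟨e, he, heb, heb'⟩ : ∃ e : Bool → V, ((∀ c, π (e c) = cl c) ∧
      G.Adj (e false) (e true)) ∧ e b = u ∧ e b' = v := by
    refine ⟨fun c => if c = b then u else v, ⟨?_, ?_⟩, ?_, ?_⟩
    · intro c
      by_cases hc : c = b
      · simp [hc, hb]
      · have : c = b' := by cases b <;> cases b' <;> cases c <;> simp_all
        subst this
        simp [hc, hb']
    · cases b <;> cases b' <;> simp_all [SimpleGraph.adj_comm]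
    · simp
    · simp [hbb.symm]
  refine ⟨fun n => match ω.1.1 n with
    | none => (ω.2, ⟨e, he⟩)
    | some s => s, hbb, ?_, ?_⟩
  · intro n
    simp only [wd]
    cases hn : ω.1.1 n with
    | none =>
      simp only
      rw [rho_of_inc]
      simp [inc, ep, heb]
    | some s => simp
  · intro n
    simp only [wd]
    cases hn : ω.1.1 n with
    | none =>
      simp only
      rw [rho_of_inc]
      simp [inc, ep, heb']
    | some s => simp

/-- Claim 3: the copies are induced. -/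
theorem claim3 (hG : ∀ u v, G.Adj u v → π u ≠ π v) {ω : Om G π cl R N} {u v : V}
    (h : Adj' G π cl R N (phi G π cl R N ω u) (phi G π cl R N ω v)) : G.Adj u v := by
  rcases hu : phi G π cl R N ω u with x | ⟨ω', u'⟩
  · rcases hv : phi G π cl R N ω v with y | ⟨ω', v'⟩
    · rw [hu, hv] at h
      obtain ⟨b, hb, rfl⟩ := inl_class hcl hu
      obtain ⟨b', hb', rfl⟩ := inl_class hcl hv
      obtain ⟨s, hs, h1, h2⟩ := edge_word hcl h hG
      obtain ⟨n0, hn0⟩ := ω.1.2
      have a1 := h1 n0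
      have a2 := h2 n0
      simp only [wd, hn0] at a1 a2
      obtain ⟨i1, i2⟩ := rho_inl a1.symm
      obtain ⟨i3, i4⟩ := rho_inl a2.symm
      refine two_inc_adj (k := ω.2) ?_ i1 i3 i2
      intro h
      rw [Prod.mk.injEq] at h
      exact hs h.1
    · obtain ⟨rfl, rfl⟩ := fresh_eq hcl hv
      rw [hv] at h
      obtain ⟨ω'', a, c, hac, ha, hc⟩ := h
      obtain ⟨rfl, rfl⟩ := fresh_eq hcl hc
      rwa [← phi_inj hcl _ ha]
  · obtain ⟨rfl, rfl⟩ := fresh_eq hcl hu
    rw [hu] at h
    obtain ⟨ω'', a, c, hac, ha, hc⟩ := h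
    obtain ⟨rfl, rfl⟩ := fresh_eq hcl ha
    rwa [← phi_inj hcl _ hc]

/-- Claim 2: a common `F`-neighbour of two same-side vertices of a copy is in the copy. -/
theorem claim2 (hG : ∀ u v, G.Adj u v → π u ≠ π v) {ω : Om G π cl R N} {u v : V} {x y w}
    (hu : phi G π cl R N ω u = Sum.inl x) (hv : phi G π cl R N ω v = Sum.inl y)
    (huv : u ≠ v) (hc : π u = π v)
    (h1 : Adj' G π cl R N (Sum.inl x) (Sum.inl w)) (h2 : Adj' G π cl R N (Sum.inl y) (Sum.inl w)) :
    ∃ d, phi G π cl R N ω d = Sum.inl w := by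
  obtain ⟨b, hb, rfl⟩ := inl_class hcl hu
  obtain ⟨b', hb', rfl⟩ := inl_class hcl hv
  have hbb : b = b' := by
    have h : cl b = cl b' := by rw [← hb, ← hb', hc]
    cases b <;> cases b' <;> simp_all
  subst hbb
  obtain ⟨s, hs, a1, a2⟩ := edge_word hcl h1 hG
  obtain ⟨s', hs', a1', a2'⟩ := edge_word hcl h2 hG
  simp only at hs hs' a1 a1' a2 a2'
  have hpp : ω.2 b u ≠ ω.2 b v := fun h => huv ((ω.2 b).injective h)
  -- no letter is incident with two distinct classes on the same side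
  have key : ∀ t : Let G π cl R, inc G π cl R (b, ω.2 b u) t → inc G π cl R (b, ω.2 b v) t →
      False := by
    intro t ht1 ht2
    simp only [inc] at ht1 ht2
    exact hpp (ht1.symm.trans ht2)
  obtain ⟨⟨c, z⟩, ww⟩ := w
  simp only at hs hs' a2 a2'
  -- active coordinates
  have hact : ∀ n, ω.1.1 n = none → ww n = Sum.inl ω.2 ∧ inc G π cl R (c, z) (s n) ∧
      inc G π cl R (b, ω.2 b u) (s n) ∧ (s n).1 = ω.2 := by
    intro n hn
    have e1 := a1 n
    have e1' := a1' n
    simp only [wd, hn] at e1 e1'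
    obtain ⟨i1, i2⟩ := rho_inl e1.symm
    obtain ⟨i1', i2'⟩ := rho_inl e1'.symm
    have e2 : rho G π cl R (c, z) (s n) = rho G π cl R (c, z) (s' n) := by
      rw [← a2 n, ← a2' n]
    rcases rho_eq e2 with h | ⟨j1, j2, j3⟩
    · exfalso
      rw [← h] at i1'
      exact key _ i1 i1'
    · refine ⟨?_, j1, i1, i2⟩
      rw [a2 n, rho_of_inc j1, i2]
  obtain ⟨n0, hn0⟩ := ω.1.2
  obtain ⟨_, q1, q2, q3⟩ := hact n0 hn0
  -- the vertex `d`
  rcases hs0 : s n0 with ⟨k0, e0, he0⟩
  rw [hs0] at q1 q2 q3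
  simp only [inc, ep] at q1 q2 q3
  subst q3
  refine ⟨e0 c, ?_⟩
  rw [phi_cl hcl ω (e0 c) c (he0.1 c)]
  rw [q1]
  congr 2
  funext n
  cases hn : ω.1.1 n with
  | none =>
    rw [(hact n hn).1]
    simp [wd, hn]
  | some t =>
    have e1 := a1 n
    have e1' := a1' n
    have e2 := a2 n
    have e2' := a2' n
    simp only [wd, hn] at e1 e1' ⊢
    rcases rho_eq e1 with h | ⟨j1, j2, j3⟩
    · rw [h, e2]
    rcases rho_eq e1' with h | ⟨j1', j2', j3'⟩
    · rw [h, e2']
    exact absurd j1' (fun h => key _ j1 h)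

/-- three `F`-vertices are never pairwise adjacent -/
theorem no_tri_F (hG : ∀ u v, G.Adj u v → π u ≠ π v) {x y z}
    (h1 : Adj' G π cl R N (Sum.inl x) (Sum.inl y)) (h2 : Adj' G π cl R N (Sum.inl x) (Sum.inl z))
    (h3 : Adj' G π cl R N (Sum.inl y) (Sum.inl z)) : False := by
  obtain ⟨_, a1, _, _⟩ := edge_word hcl h1 hG
  obtain ⟨_, a2, _, _⟩ := edge_word hcl h2 hG
  obtain ⟨_, a3, _, _⟩ := edge_word hcl h3 hG
  revert a1 a2 a3
  cases x.1.1 <;> cases y.1.1 <;> cases z.1.1 <;> simp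

theorem K4_free (hG : ∀ u v, G.Adj u v → π u ≠ π v)
    (hK : ∀ a b c d, G.Adj a b → G.Adj a c → G.Adj a d → G.Adj b c → G.Adj b d →
      G.Adj c d → False) :
    ∀ a b c d, Adj' G π cl R N a b → Adj' G π cl R N a c → Adj' G π cl R N a d →
      Adj' G π cl R N b c → Adj' G π cl R N b d → Adj' G π cl R N c d → False := by
  intro a b c d hab hac had hbc hbd hcd
  have key : ∃ (ω : Om G π cl R N) (a' b' c' d' : V), phi G π cl R N ω a' = a ∧
      phi G π cl R N ω b' = b ∧ phi G π cl R N ω c' = c ∧ phi G π cl R N ω d' = d := by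
    rcases a with a | ⟨ω, a'⟩
    · rcases b with b | ⟨ω, b'⟩
      · rcases c with c | ⟨ω, c'⟩
        · exact (no_tri_F hcl hG hab hac hbc).elim
        · obtain ⟨h0, a', h1⟩ := fresh_nbr hcl hac.symm
          obtain ⟨_, b', h2⟩ := fresh_nbr hcl hbc.symm
          obtain ⟨_, d', h3⟩ := fresh_nbr hcl hcd
          exact ⟨ω, a', b', c', d', h1, h2, h0, h3⟩
      · obtain ⟨h0, a', h1⟩ := fresh_nbr hcl hab.symm
        obtain ⟨_, c', h2⟩ := fresh_nbr hcl hbc
        obtain ⟨_, d', h3⟩ := fresh_nbr hcl hbd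
        exact ⟨ω, a', b', c', d', h1, h0, h2, h3⟩
    · obtain ⟨h0, b', h1⟩ := fresh_nbr hcl hab
      obtain ⟨_, c', h2⟩ := fresh_nbr hcl hac
      obtain ⟨_, d', h3⟩ := fresh_nbr hcl had
      exact ⟨ω, a', b', c', d', h0, h1, h2, h3⟩
  obtain ⟨ω, a', b', c', d', rfl, rfl, rfl, rfl⟩ := key
  exact hK a' b' c' d' (claim3 hcl hG hab) (claim3 hcl hG hac) (claim3 hcl hG had)
    (claim3 hcl hG hbc) (claim3 hcl hG hbd) (claim3 hcl hG hcd)

theorem H0_free (hG : ∀ u v, G.Adj u v → π u ≠ π v)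
    (hK : ∀ a b c d, G.Adj a b → G.Adj a c → G.Adj a d → G.Adj b c → G.Adj b d →
      G.Adj c d → False)
    (hH : ∀ u v x y w, G.Adj x y → G.Adj u x → G.Adj u y → G.Adj v x → G.Adj v y →
      G.Adj u w → G.Adj v w → u ≠ v → w ≠ x → w ≠ y → False) :
    ∀ u v x y w, Adj' G π cl R N x y → Adj' G π cl R N u x → Adj' G π cl R N u y →
      Adj' G π cl R N v x → Adj' G π cl R N v y →
      Adj' G π cl R N u w → Adj' G π cl R N v w → u ≠ v → w ≠ x → w ≠ y → False := by
  intro u v x y w hxy hux huy hvx hvy huw hvw huv hwx hwy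
  -- all of `u, v, x, y` in one copy
  have key : ∃ (ω : Om G π cl R N) (u' v' x' y' : V), phi G π cl R N ω u' = u ∧
      phi G π cl R N ω v' = v ∧ phi G π cl R N ω x' = x ∧ phi G π cl R N ω y' = y := by
    rcases x with x | ⟨ω, x'⟩
    · rcases y with y | ⟨ω, y'⟩
      · rcases u with u | ⟨ω1, u'⟩
        · exact (no_tri_F hcl hG hux huy hxy).elim
        rcases v with v | ⟨ω2, v'⟩
        · exact (no_tri_F hcl hG hvx hvy hxy).elim
        obtain ⟨hu0, x1, hx1⟩ := fresh_nbr hcl hux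
        obtain ⟨_, y1, hy1⟩ := fresh_nbr hcl huy
        obtain ⟨_, w1, hw1⟩ := fresh_nbr hcl huw
        obtain ⟨hv0, x2, hx2⟩ := fresh_nbr hcl hvx
        obtain ⟨_, y2, hy2⟩ := fresh_nbr hcl hvy
        obtain ⟨_, w2, hw2⟩ := fresh_nbr hcl hvw
        have hωω : ω1 = ω2 := by
          rcases w with w | ⟨ω3, w'⟩
          · obtain ⟨bx, hbx, _⟩ := inl_class hcl hx1
            obtain ⟨bY, hbY, _⟩ := inl_class hcl hy1
            obtain ⟨bw, hbw, _⟩ := inl_class hcl hw1
            have hxy1 : bx ≠ bY := by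
              rintro rfl
              have := claim3 hcl hG (u := x1) (v := y1) (ω := ω1) (by rw [hx1, hy1]; exact hxy)
              exact hG _ _ this (hbx.trans hbY.symm)
            have hwx1 : w1 ≠ x1 := by
              rintro rfl
              exact hwx (by rw [← hw1, hx1])
            have hwy1 : w1 ≠ y1 := by
              rintro rfl
              exact hwy (by rw [← hw1, hy1])
            by_cases hb : bw = bx
            · refine claim1 hcl hw1 hx1 hw2 hx2 hwx1 ?_
              intro h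
              exact hG _ _ h (by rw [hbw, hbx, hb])
            · have hb' : bw = bY := by
                revert hb hxy1
                cases bw <;> cases bx <;> cases bY <;> simp
              refine claim1 hcl hw1 hy1 hw2 hy2 hwy1 ?_
              intro h
              exact hG _ _ h (by rw [hbw, hbY, hb'])
          · obtain ⟨rfl, _⟩ := fresh_eq hcl hw1
            obtain ⟨rfl, _⟩ := fresh_eq hcl hw2
            rfl
        subst hωω
        exact ⟨ω1, u', v', x1, y1, hu0, hv0, hx1, hy1⟩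
      · obtain ⟨hy0, x', hx⟩ := fresh_nbr hcl hxy.symm
        obtain ⟨_, u', hu⟩ := fresh_nbr hcl huy.symm
        obtain ⟨_, v', hv⟩ := fresh_nbr hcl hvy.symm
        exact ⟨ω, u', v', x', y', hu, hv, hx, hy0⟩
    · obtain ⟨hx0, y', hy⟩ := fresh_nbr hcl hxy
      obtain ⟨_, u', hu⟩ := fresh_nbr hcl hux.symm
      obtain ⟨_, v', hv⟩ := fresh_nbr hcl hvx.symm
      exact ⟨ω, u', v', x', y', hu, hv, hx0, hy⟩
  obtain ⟨ω, u', v', x', y', rfl, rfl, rfl, rfl⟩ := key
  have cxy := claim3 hcl hG hxy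
  have cux := claim3 hcl hG hux
  have cuy := claim3 hcl hG huy
  have cvx := claim3 hcl hG hvx
  have cvy := claim3 hcl hG hvy
  -- it suffices to put `w` in the same copy
  have fin : (∃ w', phi G π cl R N ω w' = w) → False := by
    rintro ⟨w', rfl⟩
    exact hH u' v' x' y' w' cxy cux cuy cvx cvy (claim3 hcl hG huw) (claim3 hcl hG hvw)
      (fun h => huv (by rw [h])) (fun h => hwx (by rw [h])) (fun h => hwy (by rw [h]))
  apply fin
  rcases hu : phi G π cl R N ω u' with p | ⟨ω1, u1⟩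
  swap
  · obtain ⟨rfl, rfl⟩ := fresh_eq hcl hu
    rw [hu] at huw
    exact (fresh_nbr hcl huw).2
  rcases hv : phi G π cl R N ω v' with q | ⟨ω1, v1⟩
  swap
  · obtain ⟨rfl, rfl⟩ := fresh_eq hcl hv
    rw [hv] at hvw
    exact (fresh_nbr hcl hvw).2
  have hne : u' ≠ v' := fun h => huv (by rw [h])
  rcases w with w | ⟨ω2, w'⟩
  · -- `w` in `F`
    rw [hu] at huw
    rw [hv] at hvw
    have hcuv : π u' = π v' := by
      obtain ⟨b, hb, rfl⟩ := inl_class hcl hu
      obtain ⟨b', hb', rfl⟩ := inl_class hcl hv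
      obtain ⟨_, a1, _, _⟩ := edge_word hcl huw hG
      obtain ⟨_, a2, _, _⟩ := edge_word hcl hvw hG
      have : b = b' := by
        revert a1 a2
        cases w.1.1 <;> cases b <;> cases b' <;> simp
      rw [hb, hb', this]
    exact claim2 hcl hG hu hv hne hcuv huw hvw
  · -- `w` fresh
    obtain ⟨hw0, u2, hu2⟩ := fresh_nbr hcl huw.symm
    obtain ⟨_, v2, hv2⟩ := fresh_nbr hcl hvw.symm
    rw [hu] at hu2
    rw [hv] at hv2
    by_cases hadj : G.Adj u' v'
    · exact (hK u' v' x' y' hadj cux cuy cvx cvy cxy).elim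
    · have := claim1 hcl hu hv hu2 hv2 hne hadj
      subst this
      exact ⟨w', hw0⟩

end Step

/-- The one-step lemma. -/
theorem step {V : Type} [Finite V] (G : SimpleGraph V) (π : V → Fin 6) (cl : Bool → Fin 6)
    (hcl : cl false ≠ cl true) (hG : ∀ u v, G.Adj u v → π u ≠ π v)
    (hK : ∀ a b c d, G.Adj a b → G.Adj a c → G.Adj a d → G.Adj b c → G.Adj b d →
      G.Adj c d → False)
    (hH : ∀ u v x y w, G.Adj x y → G.Adj u x → G.Adj u y → G.Adj v x → G.Adj v y →
      G.Adj u w → G.Adj v w → u ≠ v → w ≠ x → w ≠ y → False) :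
    ∃ (V' : Type) (_ : Finite V') (G' : SimpleGraph V') (π' : V' → Fin 6),
      (∀ u v, G'.Adj u v → π' u ≠ π' v) ∧
      (∀ a b c d, G'.Adj a b → G'.Adj a c → G'.Adj a d → G'.Adj b c → G'.Adj b d →
        G'.Adj c d → False) ∧
      (∀ u v x y w, G'.Adj x y → G'.Adj u x → G'.Adj u y → G'.Adj v x → G'.Adj v y →
        G'.Adj u w → G'.Adj v w → u ≠ v → w ≠ x → w ≠ y → False) ∧
      ∀ c : V' → V' → Bool, ∃ φ : V → V', (∀ u v, G.Adj u v → G'.Adj (φ u) (φ v)) ∧
        (∀ v, π' (φ v) = π v) ∧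
        ∃ t, ∀ u v, G.Adj u v → π u = cl false → π v = cl true → c (φ u) (φ v) = t := by
  classical
  obtain ⟨R, hR, hrect⟩ := rect V
  have : Finite (Let G π cl R) := inferInstance
  obtain ⟨N, hN, hJ⟩ := Line.exists_mono_in_high_dimension (Let G π cl R) (R → R → Bool)
  have : Finite (W G π cl R N) := by
    have : Finite (Om G π cl R N) := inferInstance
    infer_instance
  let G' : SimpleGraph (W G π cl R N) :=
    { Adj := Adj' G π cl R N
      symm := ⟨fun _ _ h => h.symm⟩
      loopless := ⟨by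
        rintro z ⟨ω, u, v, huv, hu, hv⟩
        have := phi_inj hcl ω (hu.trans hv.symm)
        subst this
        exact G.loopless.irrefl _ huv⟩ }
  refine ⟨W G π cl R N, inferInstance, G', pi' G π cl R N, ?_, K4_free hcl hG hK,
    H0_free hcl hG hK hH, ?_⟩
  · rintro z z' ⟨ω, u, v, huv, rfl, rfl⟩
    rw [pi'_phi hcl, pi'_phi hcl]
    exact hG u v huv
  · intro c
    obtain ⟨l, c0, hl⟩ := hJ (fun s x y =>
      c (Sum.inl ((false, x), fun n => rho G π cl R (false, x) (s n)))
        (Sum.inl ((true, y), fun n => rho G π cl R (true, y) (s n))))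
    obtain ⟨f, g, t, hfg⟩ := hrect c0
    let κ : KK V R := fun b => if b then g else f
    let ω : Om G π cl R N := (⟨l.idxFun, l.proper⟩, κ)
    refine ⟨phi G π cl R N ω, ?_, pi'_phi hcl ω, t, ?_⟩
    · intro u v huv
      exact ⟨ω, u, v, huv, rfl, rfl⟩
    · intro u v huv hu hv
      let e : E0 G π cl := ⟨fun b => if b then v else u, by
        refine ⟨?_, by simpa using huv⟩
        intro b
        cases b <;> simp [hu, hv]⟩
      have h1 := congrFun (congrFun (hl (κ, e)) (f u)) (g v)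
      simp only at h1
      rw [hfg] at h1
      rw [← h1, phi_cl hcl ω u false hu, phi_cl hcl ω v true hv]
      have e1 : wd G π cl R N l.idxFun κ (false, κ false u) =
          fun n => rho G π cl R (false, f u) (l (κ, e) n) := by
        funext n
        cases hn : l.idxFun n with
        | none =>
          simp only [wd, hn, Line.coe_apply, Option.getD_none]
          rw [rho_of_inc]
          simp [inc, ep, κ, e]
        | some s => simp [wd, hn, κ]
      have e2 : wd G π cl R N l.idxFun κ (true, κ true v) =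
          fun n => rho G π cl R (true, g v) (l (κ, e) n) := by
        funext n
        cases hn : l.idxFun n with
        | none =>
          simp only [wd, hn, Line.coe_apply, Option.getD_none]
          rw [rho_of_inc]
          simp [inc, ep, κ, e]
        | some s => simp [wd, hn, κ]
      change c (Sum.inl ((false, κ false u), wd G π cl R N l.idxFun κ (false, κ false u)))
        (Sum.inl ((true, κ true v), wd G π cl R N l.idxFun κ (true, κ true v))) = _
      rw [e1, e2]
      rfl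

/-- vertices of the picture zero -/
abbrev P0 := (Fin 3 → Fin 6) × Fin 3

/-- adjacency of the picture zero: disjoint triangles -/
def adj0 (u v : P0) : Prop := Function.Injective u.1 ∧ u.1 = v.1 ∧ u.2 ≠ v.2

/-- Iterating the step over a list of pairs of classes. -/
theorem iterate (T : List (Fin 6 × Fin 6)) (hT : ∀ p ∈ T, p.1 ≠ p.2) :
    ∃ (V : Type) (_ : Finite V) (G : SimpleGraph V) (π : V → Fin 6),
      (∀ u v, G.Adj u v → π u ≠ π v) ∧
      (∀ a b c d, G.Adj a b → G.Adj a c → G.Adj a d → G.Adj b c → G.Adj b d →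
        G.Adj c d → False) ∧
      (∀ u v x y w, G.Adj x y → G.Adj u x → G.Adj u y → G.Adj v x → G.Adj v y →
        G.Adj u w → G.Adj v w → u ≠ v → w ≠ x → w ≠ y → False) ∧
      ∀ c : V → V → Bool, ∃ φ : P0 → V, (∀ u v, adj0 u v → G.Adj (φ u) (φ v)) ∧
        (∀ v : P0, π (φ v) = v.1 v.2) ∧
        ∀ p ∈ T, ∃ t, ∀ u v : P0, adj0 u v → u.1 u.2 = p.1 → v.1 v.2 = p.2 →
          c (φ u) (φ v) = t := by
  induction T with
  | nil =>
    let G : SimpleGraph P0 :=
      { Adj := adj0
        symm := ⟨fun u v h => ⟨h.2.1 ▸ h.1, h.2.1.symm, h.2.2.symm⟩⟩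
        loopless := ⟨fun u h => h.2.2 rfl⟩ }
    have h4' : ∀ a b c d : Fin 3,
        ¬ (a ≠ b ∧ a ≠ c ∧ a ≠ d ∧ b ≠ c ∧ b ≠ d ∧ c ≠ d) := by
      decide
    have h4 : ∀ a b c d : Fin 3, a ≠ b → a ≠ c → a ≠ d → b ≠ c → b ≠ d → c ≠ d → False :=
      fun a b c d h1 h2 h3 h4 h5 h6 => h4' a b c d ⟨h1, h2, h3, h4, h5, h6⟩
    refine ⟨P0, inferInstance, G, fun v => v.1 v.2, ?_, ?_, ?_, ?_⟩
    · rintro ⟨a, i⟩ ⟨b, j⟩ ⟨h1, h2, h3⟩
      simp only at h1 h2 h3 ⊢
      subst h2
      exact fun h => h3 (h1 h)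
    · intro a b c d hab hac had hbc hbd hcd
      exact h4 _ _ _ _ hab.2.2 hac.2.2 had.2.2 hbc.2.2 hbd.2.2 hcd.2.2
    · intro u v x y w hxy hux huy hvx hvy huw hvw huv hwx hwy
      have huv' : u.2 ≠ v.2 := by
        intro h
        exact huv (Prod.ext (hux.2.1.trans hvx.2.1.symm) h)
      exact h4 _ _ _ _ huv' hux.2.2 huy.2.2 hvx.2.2 hvy.2.2 hxy.2.2
    · intro c
      exact ⟨id, fun _ _ h => h, fun _ => rfl, fun p hp => by simp at hp⟩
  | cons p T ih =>
    obtain ⟨V, hV, G, π, hG, hK, hH, hc⟩ := ih (fun q hq => hT q (List.mem_cons_of_mem _ hq))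
    obtain ⟨V', hV', G', π', hG', hK', hH', hc'⟩ :=
      step G π (fun b => if b then p.2 else p.1) (by simpa using hT p List.mem_cons_self)
        hG hK hH
    refine ⟨V', hV', G', π', hG', hK', hH', ?_⟩
    intro c
    obtain ⟨φ', h1, h2, t, ht⟩ := hc' c
    obtain ⟨φ, g1, g2, g3⟩ := hc (fun u v => c (φ' u) (φ' v))
    refine ⟨fun u => φ' (φ u), fun u v huv => h1 _ _ (g1 u v huv),
      fun v => by rw [h2, g2], ?_⟩
    intro q hq
    rcases List.mem_cons.mp hq with rfl | hq
    · refine ⟨t, fun u v huv hu hv => ht _ _ (g1 u v huv) ?_ ?_⟩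
      · simp [g2, hu]
      · simp [g2, hv]
    · exact g3 q hq

/-- `R(3,3) ≤ 6` in the form needed -/
theorem ramsey6 (t : Fin 6 → Fin 6 → Bool) :
    ∃ i j k : Fin 6, i ≠ j ∧ j ≠ k ∧ i ≠ k ∧ t i j = t j k ∧ t j k = t i k := by
  have key : ∀ a b c d e : Bool, ∃ i j k : Fin 5, i ≠ j ∧ j ≠ k ∧ i ≠ k ∧
      ![a, b, c, d, e] i = ![a, b, c, d, e] j ∧ ![a, b, c, d, e] j = ![a, b, c, d, e] k := by
    decide
  obtain ⟨i, j, k, hij, hjk, hik, h1, h2⟩ := key (t 0 1) (t 0 2) (t 0 3) (t 0 4) (t 0 5)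
  have hv : ∀ m : Fin 5, ![t 0 1, t 0 2, t 0 3, t 0 4, t 0 5] m = t 0 m.succ := by
    intro m
    fin_cases m <;> rfl
  rw [hv, hv] at h1
  rw [hv, hv] at h2
  have ne0 : ∀ m : Fin 5, (0 : Fin 6) ≠ m.succ := fun m => (Fin.succ_ne_zero m).symm
  have si : ∀ {a b : Fin 5}, a ≠ b → a.succ ≠ b.succ := fun h h' => h (Fin.succ_injective _ h')
  by_cases e1 : t i.succ j.succ = t 0 i.succ
  · exact ⟨0, i.succ, j.succ, ne0 i, si hij, ne0 j, e1.symm, by rw [e1, h1]⟩
  by_cases e2 : t j.succ k.succ = t 0 i.succ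
  · exact ⟨0, j.succ, k.succ, ne0 j, si hjk, ne0 k, by rw [e2, h1], by rw [e2, h1, h2]⟩
  by_cases e3 : t i.succ k.succ = t 0 i.succ
  · exact ⟨0, i.succ, k.succ, ne0 i, si hik, ne0 k, e3.symm, by rw [e3, h1, h2]⟩
  · refine ⟨i.succ, j.succ, k.succ, si hij, si hjk, si hik, ?_, ?_⟩
    · revert e1 e2 e3
      cases t i.succ j.succ <;> cases t j.succ k.succ <;> cases t 0 i.succ <;> simp
    · revert e1 e2 e3
      cases t i.succ k.succ <;> cases t j.succ k.succ <;> cases t 0 i.succ <;> simp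

/-- A finite graph without `K₄` and without `H₀` (the complement of `P₂ ∪ P₃`), every
2-colouring of whose edges has a monochromatic triangle. -/
theorem exists_folkman :
    ∃ (V : Type) (_ : Finite V) (G : SimpleGraph V),
      (∀ a b c d, G.Adj a b → G.Adj a c → G.Adj a d → G.Adj b c → G.Adj b d →
        G.Adj c d → False) ∧
      (∀ u v x y w, G.Adj x y → G.Adj u x → G.Adj u y → G.Adj v x → G.Adj v y →
        G.Adj u w → G.Adj v w → u ≠ v → w ≠ x → w ≠ y → False) ∧
      ∀ c : V → V → Bool, (∀ x y, c x y = c y x) →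
        ∃ x y z, G.Adj x y ∧ G.Adj y z ∧ G.Adj x z ∧ c x y = c y z ∧ c y z = c x z := by
  classical
  obtain ⟨V, hV, G, π, hG, hK, hH, hc⟩ := iterate
    ((Finset.univ.filter (fun p : Fin 6 × Fin 6 => p.1 ≠ p.2)).toList) (by simp)
  refine ⟨V, hV, G, hK, hH, ?_⟩
  intro c hsym
  obtain ⟨φ, g1, g2, g3⟩ := hc c
  have g3' : ∀ i j : Fin 6, i ≠ j → ∃ t, ∀ u v : P0, adj0 u v → u.1 u.2 = i → v.1 v.2 = j →
      c (φ u) (φ v) = t := by
    intro i j hij
    exact g3 (i, j) (by simp [hij])
  choose! t ht using g3'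
  have hedge : ∀ (a : Fin 3 → Fin 6), Function.Injective a → ∀ m n : Fin 3, m ≠ n →
      c (φ (a, m)) (φ (a, n)) = t (a m) (a n) := by
    intro a ha m n hmn
    exact ht (a m) (a n) (fun h => hmn (ha h)) (a, m) (a, n) ⟨ha, rfl, hmn⟩ rfl rfl
  have hinj : ∀ i j k : Fin 6, i ≠ j → j ≠ k → i ≠ k → Function.Injective ![i, j, k] := by
    decide
  obtain ⟨i, j, k, hij, hjk, hik, e1, e2⟩ := ramsey6 t
  have hi := hinj i j k hij hjk hik
  refine ⟨φ (![i, j, k], 0), φ (![i, j, k], 1), φ (![i, j, k], 2),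
    g1 _ _ ⟨hi, rfl, (by decide : (0 : Fin 3) ≠ 1)⟩,
    g1 _ _ ⟨hi, rfl, (by decide : (1 : Fin 3) ≠ 2)⟩,
    g1 _ _ ⟨hi, rfl, (by decide : (0 : Fin 3) ≠ 2)⟩, ?_, ?_⟩
  · rw [hedge _ hi 0 1 (by decide), hedge _ hi 1 2 (by decide)]
    simpa using e1
  · rw [hedge _ hi 1 2 (by decide), hedge _ hi 0 2 (by decide)]
    simpa using e2

/-- The same over `Fin n`. -/
theorem exists_folkman_fin :
    ∃ (n : ℕ) (G : SimpleGraph (Fin n)),
      (∀ a b c d, G.Adj a b → G.Adj a c → G.Adj a d → G.Adj b c → G.Adj b d →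
        G.Adj c d → False) ∧
      (∀ u v x y w, G.Adj x y → G.Adj u x → G.Adj u y → G.Adj v x → G.Adj v y →
        G.Adj u w → G.Adj v w → u ≠ v → w ≠ x → w ≠ y → False) ∧
      ∀ c : Fin n → Fin n → Bool, (∀ x y, G.Adj x y → c x y = c y x) →
        ∃ x y z, G.Adj x y ∧ G.Adj y z ∧ G.Adj x z ∧ c x y = c y z ∧ c y z = c x z := by
  classical
  obtain ⟨V, hV, G, hK, hH, hc⟩ := exists_folkman
  have := Fintype.ofFinite V
  let e := Fintype.equivFin V
  refine ⟨Fintype.card V, G.comap e.symm, ?_, ?_, ?_⟩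
  all_goals
    simp only [SimpleGraph.comap_adj]
  · intro a b c d h1 h2 h3 h4 h5 h6
    exact hK _ _ _ _ h1 h2 h3 h4 h5 h6
  · intro u v x y w h1 h2 h3 h4 h5 h6 h7 h8 h9 h10
    exact hH _ _ _ _ _ h1 h2 h3 h4 h5 h6 h7 (fun h => h8 (e.symm.injective h))
      (fun h => h9 (e.symm.injective h)) (fun h => h10 (e.symm.injective h))
  · intro c hsym
    obtain ⟨x, y, z, h1, h2, h3, h4, h5⟩ :=
      hc (fun x y => if G.Adj x y then c (e x) (e y) else false) (by
        intro x y
        by_cases h : G.Adj x y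
        · simp [h, h.symm, hsym (e x) (e y) (by simpa using h)]
        · have h' : ¬ G.Adj y x := fun h' => h h'.symm
          simp [h, h'])
    simp only [h1, h2, h3, if_true] at h4 h5
    exact ⟨e x, e y, e z, by simpa using h1, by simpa using h2, by simpa using h3, h4, h5⟩

end Pool.Agent.H31.Folkman
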