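import Pool.Agent.H31.Folkman

set_option autoImplicit false

namespace Pool.Agent.H31.FolkmanArrow

/-- Not a hand-in. It is false that every finite graph in which each 2-colouring of the edges has a monochromatic triangle contains, as a subgraph, K5 minus the three edges 01, 23, 34 (the complement of P2 ∪ P3). -/
theorem exists_H0_free_arrowing :
    ¬ (∀ n : ℕ, ∀ G : SimpleGraph (Fin n),
      (∀ c : Fin n → Fin n → Bool, (∀ x y : Fin n, G.Adj x y → c x y = c y x) →
        ∃ x y z : Fin n,
          G.Adj x y ∧ G.Adj y z ∧ G.Adj x z ∧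
          c x y = c y z ∧ c y z = c x z) →
      ∃ f : Fin 5 → Fin n, Function.Injective f ∧
        ∀ i j : Fin 5, i ≠ j →
          ¬ ((i = 0 ∧ j = 1) ∨ (i = 1 ∧ j = 0) ∨ (i = 2 ∧ j = 3) ∨
             (i = 3 ∧ j = 2) ∨ (i = 3 ∧ j = 4) ∨ (i = 4 ∧ j = 3)) →
          G.Adj (f i) (f j)) := by
  intro h
  obtain ⟨n, G, -, hH, hc⟩ := Pool.Agent.H31.Folkman.exists_folkman_fin
  obtain ⟨f, hf, hadj⟩ := h n G hc
  exact hH (f 0) (f 1) (f 2) (f 4) (f 3)
    (hadj 2 4 (by decide) (by decide)) (hadj 0 2 (by decide) (by decide))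
    (hadj 0 4 (by decide) (by decide)) (hadj 1 2 (by decide) (by decide))
    (hadj 1 4 (by decide) (by decide)) (hadj 0 3 (by decide) (by decide))
    (hadj 1 3 (by decide) (by decide)) (fun e => absurd (hf e) (by decide))
    (fun e => absurd (hf e) (by decide)) (fun e => absurd (hf e) (by decide))

end Pool.Agent.H31.FolkmanArrow
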