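import Mathlib

/-! Back-and-forth and the coloured BIT graph, used for the counterexample to the
question on random invariant graphs (MP_ac9a20_co). -/

set_option autoImplicit false

namespace Pool.Agent.H31.Rado

/-! ### A general back-and-forth lemma -/

section BackForth

variable {α β : Type*} (P : α × β → α × β → Prop)

/-- A finite set of pairs is good when all pairs of its members satisfy `P`. -/
def Good (F : Finset (α × β)) : Prop := ∀ p ∈ F, ∀ q ∈ F, P p q

theorem backForth [Countable α] [Countable β] [DecidableEq α] [DecidableEq β]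
    (hinj : ∀ p q, P p q → (p.1 = q.1 ↔ p.2 = q.2))
    (forth : ∀ F, Good P F → ∀ a : α, ∃ b : β, Good P (insert (a, b) F))
    (back : ∀ F, Good P F → ∀ b : β, ∃ a : α, Good P (insert (a, b) F))
    (F₀ : Finset (α × β)) (h₀ : Good P F₀) :
    ∃ e : α ≃ β, (∀ p ∈ F₀, e p.1 = p.2) ∧ ∀ a b, P (a, e a) (b, e b) := by
  classical
  have : Encodable (α ⊕ β) := Encodable.ofCountable _
  -- one step
  have step : ∀ (F : {F : Finset (α × β) // Good P F}) (x : Option (α ⊕ β)),
      ∃ F' : {F : Finset (α × β) // Good P F}, F.1 ⊆ F'.1 ∧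
        (∀ a, x = some (Sum.inl a) → ∃ b, (a, b) ∈ F'.1) ∧
        (∀ b, x = some (Sum.inr b) → ∃ a, (a, b) ∈ F'.1) := by
    intro F x
    rcases x with _ | (a | b)
    · exact ⟨F, subset_rfl, by simp, by simp⟩
    · obtain ⟨b, hb⟩ := forth F.1 F.2 a
      refine ⟨⟨_, hb⟩, Finset.subset_insert _ _, ?_, by simp⟩
      intro a' ha'
      have : a = a' := by simpa using ha'
      subst this
      exact ⟨b, Finset.mem_insert_self _ _⟩
    · obtain ⟨a, ha⟩ := back F.1 F.2 b
      refine ⟨⟨_, ha⟩, Finset.subset_insert _ _, by simp, ?_⟩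
      intro b' hb'
      have : b = b' := by simpa using hb'
      subst this
      exact ⟨a, Finset.mem_insert_self _ _⟩
  choose nxt hsub hl hr using step
  let F : ℕ → {F : Finset (α × β) // Good P F} := fun n =>
    Nat.rec ⟨F₀, h₀⟩ (fun n Fn => nxt Fn (Encodable.decode n)) n
  have hF0 : F 0 = ⟨F₀, h₀⟩ := rfl
  have hFs : ∀ n, F (n + 1) = nxt (F n) (Encodable.decode n) := fun n => rfl
  have hmono : ∀ m n, m ≤ n → (F m).1 ⊆ (F n).1 := by
    intro m n hmn
    induction hmn with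
    | refl => exact subset_rfl
    | step _ ih =>
      refine ih.trans ?_
      rw [hFs]
      exact hsub _ _
  have hP : ∀ m n p q, p ∈ (F m).1 → q ∈ (F n).1 → P p q := by
    intro m n p q hp hq
    exact (F (max m n)).2 p (hmono _ _ (le_max_left _ _) hp) q (hmono _ _ (le_max_right _ _) hq)
  have hA : ∀ a : α, ∃ b : β, ∃ n, (a, b) ∈ (F n).1 := by
    intro a
    obtain ⟨b, hb⟩ := hl (F (Encodable.encode (Sum.inl a : α ⊕ β)))
      (Encodable.decode (Encodable.encode (Sum.inl a : α ⊕ β))) a (Encodable.encodek _)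
    refine ⟨b, Encodable.encode (Sum.inl a : α ⊕ β) + 1, ?_⟩
    rw [hFs]
    exact hb
  have hB : ∀ b : β, ∃ a : α, ∃ n, (a, b) ∈ (F n).1 := by
    intro b
    obtain ⟨a, ha⟩ := hr (F (Encodable.encode (Sum.inr b : α ⊕ β)))
      (Encodable.decode (Encodable.encode (Sum.inr b : α ⊕ β))) b (Encodable.encodek _)
    refine ⟨a, Encodable.encode (Sum.inr b : α ⊕ β) + 1, ?_⟩
    rw [hFs]
    exact ha
  choose f nf hf using hA
  choose g ng hg using hB
  have hgf : ∀ a, g (f a) = a := by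
    intro a
    have := hinj _ _ (hP _ _ _ _ (hg (f a)) (hf a))
    exact this.2 rfl
  have hfg : ∀ b, f (g b) = b := by
    intro b
    have := hinj _ _ (hP _ _ _ _ (hf (g b)) (hg b))
    exact this.1 rfl
  refine ⟨⟨f, g, hgf, hfg⟩, ?_, ?_⟩
  · intro p hp
    have hp0 : p ∈ (F 0).1 := hp
    have := hinj _ _ (hP _ 0 _ _ (hf p.1) hp0)
    exact this.1 rfl
  · intro a b
    exact hP _ _ _ _ (hf a) (hf b)

end BackForth

/-! ### The extension property and uniqueness of the Rado graph -/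

/-- The extension property of the Rado graph. -/
def Ext {α : Type*} (G : SimpleGraph α) : Prop :=
  ∀ U V : Finset α, Disjoint U V → ∃ z, z ∉ U ∧ z ∉ V ∧ (∀ u ∈ U, G.Adj z u) ∧
    (∀ v ∈ V, ¬ G.Adj z v)

theorem iso_of_ext {α β : Type*} [Countable α] [Countable β] (G : SimpleGraph α)
    (H : SimpleGraph β) (hG : Ext G) (hH : Ext H) : Nonempty (G ≃g H) := by
  classical
  let P : α × β → α × β → Prop := fun p q =>
    (p.1 = q.1 ↔ p.2 = q.2) ∧ (G.Adj p.1 q.1 ↔ H.Adj p.2 q.2)
  have hsymm : ∀ p q, P p q → P q p := by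
    intro p q h
    refine ⟨?_, ?_⟩
    · rw [eq_comm, h.1, eq_comm]
    · rw [G.adj_comm, h.2, H.adj_comm]
  have hrefl : ∀ p, P p p := fun p => by
    simp only [P, true_and, SimpleGraph.irrefl]
  have forth : ∀ F, Good P F → ∀ a : α, ∃ b : β, Good P (insert (a, b) F) := by
    intro F hF a
    by_cases ha : ∃ p ∈ F, p.1 = a
    · obtain ⟨p, hp, rfl⟩ := ha
      refine ⟨p.2, ?_⟩
      rw [show ((p.1, p.2) : α × β) = p from rfl, Finset.insert_eq_of_mem hp]
      exact hF
    · push Not at ha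
      obtain ⟨z, hzU, hzV, hU, hV⟩ := hH ((F.filter (fun p => G.Adj a p.1)).image Prod.snd)
        ((F.filter (fun p => ¬ G.Adj a p.1)).image Prod.snd) (by
          rw [Finset.disjoint_left]
          intro x hx hx'
          simp only [Finset.mem_image, Finset.mem_filter] at hx hx'
          obtain ⟨p, ⟨hp, hpa⟩, rfl⟩ := hx
          obtain ⟨q, ⟨hq, hqa⟩, hqp⟩ := hx'
          have := (hF p hp q hq).1.2 hqp.symm
          rw [← this] at hqa
          exact hqa hpa)
      refine ⟨z, ?_⟩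
      have key : ∀ p ∈ F, P (a, z) p := by
        intro p hp
        by_cases hap : G.Adj a p.1
        · have hm : p.2 ∈ (F.filter (fun p => G.Adj a p.1)).image Prod.snd :=
            Finset.mem_image.2 ⟨p, Finset.mem_filter.2 ⟨hp, hap⟩, rfl⟩
          refine ⟨⟨fun h => absurd h.symm (ha p hp), fun h => ?_⟩, ⟨fun _ => hU _ hm, fun _ => hap⟩⟩
          exact (hzU ((show z = _ from h) ▸ hm)).elim
        · have hm : p.2 ∈ (F.filter (fun p => ¬ G.Adj a p.1)).image Prod.snd :=
            Finset.mem_image.2 ⟨p, Finset.mem_filter.2 ⟨hp, hap⟩, rfl⟩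
          refine ⟨⟨fun h => absurd h.symm (ha p hp), fun h => ?_⟩,
            ⟨fun h => absurd h hap, fun h => absurd h (hV _ hm)⟩⟩
          exact (hzV ((show z = _ from h) ▸ hm)).elim
      intro p hp q hq
      rcases Finset.mem_insert.1 hp with rfl | hp
      · rcases Finset.mem_insert.1 hq with rfl | hq
        · exact hrefl _
        · exact key q hq
      · rcases Finset.mem_insert.1 hq with rfl | hq
        · exact hsymm _ _ (key p hp)
        · exact hF p hp q hq
  have back : ∀ F, Good P F → ∀ b : β, ∃ a : α, Good P (insert (a, b) F) := by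
    intro F hF b
    by_cases hb : ∃ p ∈ F, p.2 = b
    · obtain ⟨p, hp, rfl⟩ := hb
      refine ⟨p.1, ?_⟩
      rw [show ((p.1, p.2) : α × β) = p from rfl, Finset.insert_eq_of_mem hp]
      exact hF
    · push Not at hb
      obtain ⟨z, hzU, hzV, hU, hV⟩ := hG ((F.filter (fun p => H.Adj b p.2)).image Prod.fst)
        ((F.filter (fun p => ¬ H.Adj b p.2)).image Prod.fst) (by
          rw [Finset.disjoint_left]
          intro x hx hx'
          simp only [Finset.mem_image, Finset.mem_filter] at hx hx'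
          obtain ⟨p, ⟨hp, hpa⟩, rfl⟩ := hx
          obtain ⟨q, ⟨hq, hqa⟩, hqp⟩ := hx'
          have := (hF p hp q hq).1.1 hqp.symm
          rw [← this] at hqa
          exact hqa hpa)
      refine ⟨z, ?_⟩
      have key : ∀ p ∈ F, P (z, b) p := by
        intro p hp
        by_cases hap : H.Adj b p.2
        · have hm : p.1 ∈ (F.filter (fun p => H.Adj b p.2)).image Prod.fst :=
            Finset.mem_image.2 ⟨p, Finset.mem_filter.2 ⟨hp, hap⟩, rfl⟩
          refine ⟨⟨fun h => ?_, fun h => absurd h.symm (hb p hp)⟩, ⟨fun _ => hap, fun _ => hU _ hm⟩⟩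
          exact (hzU ((show z = _ from h) ▸ hm)).elim
        · have hm : p.1 ∈ (F.filter (fun p => ¬ H.Adj b p.2)).image Prod.fst :=
            Finset.mem_image.2 ⟨p, Finset.mem_filter.2 ⟨hp, hap⟩, rfl⟩
          refine ⟨⟨fun h => ?_, fun h => absurd h.symm (hb p hp)⟩,
            ⟨fun h => absurd h (hV _ hm), fun h => absurd h hap⟩⟩
          exact (hzV ((show z = _ from h) ▸ hm)).elim
      intro p hp q hq
      rcases Finset.mem_insert.1 hp with rfl | hp
      · rcases Finset.mem_insert.1 hq with rfl | hq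
        · exact hrefl _
        · exact key q hq
      · rcases Finset.mem_insert.1 hq with rfl | hq
        · exact hsymm _ _ (key p hp)
        · exact hF p hp q hq
  obtain ⟨e, -, he⟩ := backForth P (fun p q h => h.1) forth back ∅ (by intro p hp; simp at hp)
  exact ⟨⟨e, fun {a b} => ((he a b).2).symm⟩⟩

/-! ### The BIT graph with its colouring -/

/-- The BIT graph, as in the frozen statement. -/
def bit : SimpleGraph ℕ := SimpleGraph.fromRel (fun i j : ℕ => Nat.testBit j i = true)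

/-- The colour of a natural number. -/
def col (n : ℕ) : ℕ := (Nat.unpair (Nat.log2 n)).1

theorem bit_ext_col (j : ℕ) (U V : Finset ℕ) (hUV : Disjoint U V) :
    ∃ z, z ∉ U ∧ z ∉ V ∧ col z = j ∧ (∀ u ∈ U, bit.Adj z u) ∧ (∀ v ∈ V, ¬ bit.Adj z v) := by
  classical
  obtain ⟨k, hk⟩ : ∃ k, ∀ x ∈ U ∪ V, x < k := by
    obtain ⟨b, hb⟩ := (U ∪ V).bddAbove
    exact ⟨b + 1, fun x hx => Nat.lt_succ_of_le (hb hx)⟩
  set m := Nat.pair j k with hm
  have hkm : k ≤ m := Nat.right_le_pair j k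
  set z := Nat.ofBits (n := m + 1) (fun i => decide ((i : ℕ) ∈ U ∨ (i : ℕ) = m)) with hz
  have hzlt : z < 2 ^ (m + 1) := Nat.ofBits_lt_two_pow _
  have hzbit : ∀ i, i < m + 1 → z.testBit i = decide (i ∈ U ∨ i = m) := by
    intro i hi
    rw [hz, Nat.testBit_ofBits_lt _ _ hi]
  have hzm : z.testBit m = true := by
    rw [hzbit m (Nat.lt_succ_self m)]
    simp
  have hzge : 2 ^ m ≤ z := Nat.ge_two_pow_of_testBit hzm
  have hz0 : z ≠ 0 := by
    have : 0 < 2 ^ m := Nat.two_pow_pos m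
    omega
  have hlog : Nat.log2 z = m := by
    rw [Nat.log2_eq_iff hz0]
    exact ⟨hzge, hzlt⟩
  have hmz : ∀ x ∈ U ∪ V, x < m := fun x hx => lt_of_lt_of_le (hk x hx) hkm
  have hm2 : m < 2 ^ m := Nat.lt_two_pow_self
  have hxz : ∀ x ∈ U ∪ V, x < z := fun x hx => by
    have := hmz x hx
    omega
  have hxbit : ∀ x ∈ U ∪ V, x.testBit z = false := by
    intro x hx
    apply Nat.testBit_lt_two_pow
    exact lt_of_lt_of_le (hxz x hx) (le_of_lt Nat.lt_two_pow_self)
  refine ⟨z, ?_, ?_, ?_, ?_, ?_⟩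
  · intro h
    exact lt_irrefl _ (hxz z (Finset.mem_union_left _ h))
  · intro h
    exact lt_irrefl _ (hxz z (Finset.mem_union_right _ h))
  · rw [col, hlog, hm, Nat.unpair_pair]
  · intro u hu
    have hu' := Finset.mem_union_left V hu
    rw [bit, SimpleGraph.fromRel_adj]
    refine ⟨(hxz u hu').ne', Or.inr ?_⟩
    rw [hzbit u (by have := hmz u hu'; omega)]
    simp [hu]
  · intro v hv
    have hv' := Finset.mem_union_right U hv
    rw [bit, SimpleGraph.fromRel_adj]
    rintro ⟨-, h | h⟩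
    · rw [hxbit v hv'] at h
      exact Bool.false_ne_true h
    · rw [hzbit v (by have := hmz v hv'; omega)] at h
      have hvU : v ∉ U := fun h' => Finset.disjoint_left.1 hUV h' hv
      have hvm : v ≠ m := (hmz v hv').ne
      simp [hvU, hvm] at h

theorem bit_ext : Ext bit := by
  intro U V h
  obtain ⟨z, h1, h2, -, h3, h4⟩ := bit_ext_col 0 U V h
  exact ⟨z, h1, h2, h3, h4⟩

/-- The graph of those BIT edges that meet the colour class `0`. -/
def Γ : SimpleGraph ℕ where
  Adj x y := (col x = 0 ∨ col y = 0) ∧ bit.Adj x y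
  symm := ⟨fun x y h => ⟨h.1.symm, h.2.symm⟩⟩
  loopless := ⟨fun x h => bit.irrefl h.2⟩

theorem Γ_adj (x y : ℕ) : Γ.Adj x y ↔ (col x = 0 ∨ col y = 0) ∧ bit.Adj x y := Iff.rfl

theorem Γ_ext : Ext Γ := by
  intro U V h
  obtain ⟨z, h1, h2, h0, h3, h4⟩ := bit_ext_col 0 U V h
  exact ⟨z, h1, h2, fun u hu => ⟨Or.inl h0, h3 u hu⟩, fun v hv hv' => h4 v hv hv'.2⟩

/-- The group of all permutations that preserve the colours and the graph `Γ`. -/
def GG : Subgroup (Equiv.Perm ℕ) where
  carrier := {g | (∀ x, col (g x) = col x) ∧ ∀ x y, Γ.Adj (g x) (g y) ↔ Γ.Adj x y}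
  mul_mem' := by
    rintro g h ⟨hg1, hg2⟩ ⟨hh1, hh2⟩
    refine ⟨fun x => ?_, fun x y => ?_⟩
    · rw [Equiv.Perm.mul_apply, hg1, hh1]
    · rw [Equiv.Perm.mul_apply, Equiv.Perm.mul_apply, hg2, hh2]
  one_mem' := ⟨fun x => rfl, fun x y => Iff.rfl⟩
  inv_mem' := by
    rintro g ⟨hg1, hg2⟩
    refine ⟨fun x => ?_, fun x y => ?_⟩
    · have h := hg1 (g⁻¹ x)
      rw [show g (g⁻¹ x) = x from g.apply_symm_apply x] at h
      exact h.symm
    · have h := hg2 (g⁻¹ x) (g⁻¹ y)
      rw [show g (g⁻¹ x) = x from g.apply_symm_apply x,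
        show g (g⁻¹ y) = y from g.apply_symm_apply y] at h
      exact h.symm

theorem mem_GG (g : Equiv.Perm ℕ) :
    g ∈ GG ↔ (∀ x, col (g x) = col x) ∧ ∀ x y, Γ.Adj (g x) (g y) ↔ Γ.Adj x y := Iff.rfl

/-- The relation on pairs used in the homogeneity proof. -/
def PP (p q : ℕ × ℕ) : Prop :=
  (p.1 = q.1 ↔ p.2 = q.2) ∧ col p.1 = col p.2 ∧ col q.1 = col q.2 ∧
    (Γ.Adj p.1 q.1 ↔ Γ.Adj p.2 q.2)

theorem PP_symm {p q : ℕ × ℕ} (h : PP p q) : PP q p := by
  obtain ⟨h1, h2, h3, h4⟩ := h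
  refine ⟨?_, h3, h2, ?_⟩
  · rw [eq_comm, h1, eq_comm]
  · rw [Γ.adj_comm, h4, Γ.adj_comm]

theorem PP_swap {p q : ℕ × ℕ} (h : PP p q) : PP p.swap q.swap := by
  obtain ⟨h1, h2, h3, h4⟩ := h
  exact ⟨h1.symm, h2.symm, h3.symm, h4.symm⟩

theorem PP_forth (F : Finset (ℕ × ℕ)) (hF : Good PP F) (a : ℕ) :
    ∃ b, Good PP (insert (a, b) F) := by
  classical
  by_cases ha : ∃ p ∈ F, p.1 = a
  · obtain ⟨p, hp, rfl⟩ := ha
    refine ⟨p.2, ?_⟩
    rw [show ((p.1, p.2) : ℕ × ℕ) = p from rfl, Finset.insert_eq_of_mem hp]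
    exact hF
  · push Not at ha
    obtain ⟨z, hzU, hzV, hcol, hU, hV⟩ :=
      bit_ext_col (col a) ((F.filter (fun p => Γ.Adj a p.1)).image Prod.snd)
      ((F.filter (fun p => ¬ Γ.Adj a p.1)).image Prod.snd) (by
        rw [Finset.disjoint_left]
        intro x hx hx'
        simp only [Finset.mem_image, Finset.mem_filter] at hx hx'
        obtain ⟨p, ⟨hp, hpa⟩, rfl⟩ := hx
        obtain ⟨q, ⟨hq, hqa⟩, hqp⟩ := hx'
        have := (hF p hp q hq).1.2 hqp.symm
        rw [← this] at hqa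
        exact hqa hpa)
    refine ⟨z, ?_⟩
    have key : ∀ p ∈ F, PP (a, z) p := by
      intro p hp
      have hpc : col p.1 = col p.2 := (hF p hp p hp).2.1
      by_cases hap : Γ.Adj a p.1
      · have hm : p.2 ∈ (F.filter (fun p => Γ.Adj a p.1)).image Prod.snd :=
          Finset.mem_image.2 ⟨p, Finset.mem_filter.2 ⟨hp, hap⟩, rfl⟩
        refine ⟨⟨fun h => absurd h.symm (ha p hp), fun h => (hzU ((show z = _ from h) ▸ hm)).elim⟩, hcol.symm, hpc,
          ⟨fun _ => ⟨?_, hU _ hm⟩, fun _ => hap⟩⟩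
        have := hap.1
        rw [← hcol, hpc] at this
        exact this
      · have hm : p.2 ∈ (F.filter (fun p => ¬ Γ.Adj a p.1)).image Prod.snd :=
          Finset.mem_image.2 ⟨p, Finset.mem_filter.2 ⟨hp, hap⟩, rfl⟩
        refine ⟨⟨fun h => absurd h.symm (ha p hp), fun h => (hzV ((show z = _ from h) ▸ hm)).elim⟩, hcol.symm, hpc,
          ⟨fun h => absurd h hap, fun h => absurd h.2 (hV _ hm)⟩⟩
    intro p hp q hq
    rcases Finset.mem_insert.1 hp with rfl | hp
    · rcases Finset.mem_insert.1 hq with rfl | hq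
      · exact ⟨by simp, hcol.symm, hcol.symm, by simp⟩
      · exact key q hq
    · rcases Finset.mem_insert.1 hq with rfl | hq
      · exact PP_symm (key p hp)
      · exact hF p hp q hq

theorem PP_back (F : Finset (ℕ × ℕ)) (hF : Good PP F) (b : ℕ) :
    ∃ a, Good PP (insert (a, b) F) := by
  classical
  have hF' : Good PP (F.image Prod.swap) := by
    intro p hp q hq
    obtain ⟨p', hp', rfl⟩ := Finset.mem_image.1 hp
    obtain ⟨q', hq', rfl⟩ := Finset.mem_image.1 hq
    exact PP_swap (hF p' hp' q' hq')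
  obtain ⟨a, ha⟩ := PP_forth _ hF' b
  refine ⟨a, ?_⟩
  have hmem : ∀ p ∈ insert (a, b) F, p.swap ∈ insert (b, a) (F.image Prod.swap) := by
    intro p hp
    rcases Finset.mem_insert.1 hp with rfl | hp
    · exact Finset.mem_insert_self _ _
    · exact Finset.mem_insert_of_mem (Finset.mem_image_of_mem _ hp)
  intro p hp q hq
  have := PP_swap (ha _ (hmem p hp) _ (hmem q hq))
  simpa using this

/-- Homogeneity: finite good partial maps extend to members of `GG`. -/
theorem homogeneous (F : Finset (ℕ × ℕ)) (hF : Good PP F) :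
    ∃ g ∈ GG, ∀ p ∈ F, g p.1 = p.2 := by
  obtain ⟨e, he1, he2⟩ := backForth PP (fun p q h => h.1) PP_forth PP_back F hF
  refine ⟨e, ⟨fun x => ?_, fun x y => ?_⟩, he1⟩
  · exact ((he2 x x).2.1).symm
  · exact ((he2 x y).2.2.2).symm

/-- Two pairs of distinct points of the same type are in one orbit. -/
theorem exists_map_pair {x y x' y' : ℕ} (hxy : x ≠ y) (hxy' : x' ≠ y') (hx : col x = col x')
    (hy : col y = col y') (hadj : Γ.Adj x y ↔ Γ.Adj x' y') :
    ∃ g ∈ GG, g x = x' ∧ g y = y' := by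
  classical
  obtain ⟨g, hg, hgF⟩ := homogeneous {(x, x'), (y, y')} (by
    intro p hp q hq
    simp only [Finset.mem_insert, Finset.mem_singleton] at hp hq
    rcases hp with rfl | rfl <;> rcases hq with rfl | rfl
    · exact ⟨by simp, hx, hx, by simp⟩
    · exact ⟨by simp [hxy, hxy'], hx, hy, hadj⟩
    · exact ⟨by simp [hxy.symm, hxy'.symm], hy, hx, by
        simp only; rw [Γ.adj_comm, hadj, Γ.adj_comm]⟩
    · exact ⟨by simp, hy, hy, by simp⟩)
  exact ⟨g, hg, hgF (x, x') (by simp), hgF (y, y') (by simp)⟩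

end Pool.Agent.H31.Rado
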